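import Mathlib.Tactic
import Pool.Agent.MP_bcda77_nt.Main

set_option autoImplicit false

namespace Pool.Agent.MP_bcda77_nt.H45


theorem last_step (T S Z u l z : ℤ) (hl : T = 2 * l) (hz : Z = 2 * z + 1) (hS10 : 10 ≤ S)
    (hT4 : 4 ≤ T) (b5 : (T - 2) * ((T - 2) * (T - 4)) < S)
    (hZ : Z = T * (3 * u + (T - 2)) - 3 * S - 9 - T ^ 2 + 5 * T)
    (e3 : (9 + T * Z) * (T * S - 3 * T + 3) = 3 * (T - 1) * (T - 3) * (T ^ 2 - 2 * T + 3)) :
    False := by
  have hD : 0 < T * S - 3 * T + 3 := by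
    have : 0 ≤ T * (S - 3) := mul_nonneg (by linarith) (by linarith)
    linarith
  have hR : 0 < 3 * (T - 1) * (T - 3) * (T ^ 2 - 2 * T + 3) := by
    have : 0 < T ^ 2 - 2 * T + 3 := by nlinarith
    have h1 : 0 < T - 1 := by linarith
    have h2 : 0 < T - 3 := by linarith
    positivity
  have hW : 0 < 9 + T * Z := by
    rw [← e3] at hR
    exact (mul_pos_iff_of_pos_right hD).1 hR
  rcases eq_or_lt_of_le hT4 with h4 | h4
  · rw [← h4] at e3 hW
    have h6 : 5 ≤ 9 + 4 * Z := by omega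
    have h7 : 31 ≤ 4 * S - 3 * 4 + 3 := by omega
    have := mul_le_mul h6 h7 (by norm_num) hW.le
    rw [e3] at this
    norm_num at this
  · have hT6 : 6 ≤ T := by omega
    have hZ0 : Z ≤ 0 := by
      by_contra hc
      rw [not_le] at hc
      have h1 : 9 + T ≤ 9 + T * Z := by
        have : T * 1 ≤ T * Z := mul_le_mul_of_nonneg_left (by omega) (by omega)
        linarith
      have h2 : (T - 2) * ((T - 2) * (T - 4)) + 1 ≤ S := by omega
      have h3 : T * ((T - 2) * ((T - 2) * (T - 4)) + 1) - 3 * T + 3 ≤ T * S - 3 * T + 3 := by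
        have := mul_le_mul_of_nonneg_left h2 (show 0 ≤ T by omega)
        linarith
      obtain ⟨t, ht⟩ : ∃ t : ℤ, T = t + 6 := ⟨T - 6, by ring⟩
      have ht0 : 0 ≤ t := by linarith
      have h5 : (9 + T) * (T * ((T - 2) * ((T - 2) * (T - 4)) + 1) - 3 * T + 3) ≤
          (9 + T * Z) * (T * S - 3 * T + 3) := by
        apply mul_le_mul h1 h3 _ hW.le
        rw [ht]
        have : 0 ≤ t ^ 4 + 16 * t ^ 3 + 92 * t ^ 2 + 222 * t + 183 := by positivity
        linarith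
      rw [e3, ht] at h5
      have h8 := pow_nonneg ht0 2
      have h9 := pow_nonneg ht0 3
      have h10 := pow_nonneg ht0 4
      have h11 := pow_nonneg ht0 5
      linarith
    have hZ1 : Z = -1 := by
      by_contra hc
      have h1 : Z ≤ -2 := by omega
      have : T * Z ≤ T * (-2) := mul_le_mul_of_nonneg_left h1 (by omega)
      linarith
    rw [hZ1] at e3 hW hZ
    have h68 : T = 6 ∨ T = 8 := by omega
    rcases h68 with h6 | h6
    · rw [h6] at e3 hZ
      omega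
    · rw [h6] at e3 hZ
      omega

theorem size_step (u P Q L n : ℤ) (hu : 2 ≤ u) (huP : u + 1 < P) (hPQ : P < Q) (hL2 : 2 ≤ L)
    (hn : 1 ≤ n) (hnq : (P - 1 - u) * P = n * Q) (hac : (P - 1 - u) * (Q - 1 - u) < u * u)
    (e1 : P ^ 2 + Q ^ 2 - L * (P * Q) = 3 * u + L) : L * (L * (L - 2)) < P + Q := by
  have hP0 : 0 < P := by linarith
  have hQ0 : 0 < Q := by linarith
  have b1 : (L - 1) * P < Q := by
    by_contra hc
    rw [not_lt] at hc
    have h1 := mul_le_mul_of_nonneg_right hc hQ0.le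
    have h2 := mul_lt_mul_of_pos_left hPQ hP0
    linarith
  have b2 : L ≤ P - 1 - u := by
    by_contra hc
    rw [not_le] at hc
    have h1 : P - 1 - u ≤ L - 1 := by omega
    have h2 := mul_le_mul_of_nonneg_right h1 hP0.le
    have h3 := mul_le_mul_of_nonneg_right hn hQ0.le
    linarith
  have b3 : (L - 2) * P < Q - 1 - u := by linarith
  have b4 : L * (L - 2) < P := by
    by_contra hc
    rw [not_lt] at hc
    have h1 : L * ((L - 2) * P) ≤ (P - 1 - u) * (Q - 1 - u) :=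
      mul_le_mul b2 b3.le (mul_nonneg (by linarith) hP0.le) (by linarith)
    have h2 : P * P ≤ L * (L - 2) * P := mul_le_mul_of_nonneg_right hc hP0.le
    have h3 : u * u < P * P := mul_lt_mul'' (by linarith) (by linarith) (by linarith) (by linarith)
    linarith
  have := mul_lt_mul_of_pos_left b4 (show 0 < L by linarith)
  linarith

/-- Both odd primes occur squared. -/
theorem core22 (u p q n : ℤ) (hu : 2 ≤ u) (hue : Even u) (hp : Odd p) (hq : Odd q)
    (hup : u < p) (hpq : p < q) (hn : 1 ≤ n) (hnq : (p - u) * (p + 1) = n * (q + 1))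
    (hG : 1 ≤ u * (u - 1) - (p - u) * (q - u))
    (h : (u - 1) * (p ^ 2 + p + 1) * (q ^ 2 + q + 1) + 1 = u * p ^ 2 * q ^ 2) : False := by
  obtain ⟨u', hudef⟩ := hue
  obtain ⟨p', hpdef⟩ := hp
  obtain ⟨q', hqdef⟩ := hq
  obtain ⟨L, hL⟩ : ∃ L : ℤ, L = u * (u - 1) - (p - u) * (q - u) + 1 := ⟨_, rfl⟩
  have hL2 : 2 ≤ L := by linarith
  have e1 : (p + 1) ^ 2 + (q + 1) ^ 2 - L * ((p + 1) * (q + 1)) = 3 * u + L := by
    rw [hL]; linear_combination (-1 : ℤ) * h
  have e2 : (p + 1) * (q + 1) + (3 * u + L) = (u + 1) * ((p + 1) + (q + 1)) := by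
    rw [hL]; ring
  have b5 := size_step u (p + 1) (q + 1) L n hu (by linarith) (by linarith) hL2 hn
    (by linarith) (by linarith) e1
  obtain ⟨l, hl⟩ : ∃ l : ℤ, L = 2 * l := by
    refine ⟨2 * (p' + 1) ^ 2 + 2 * (q' + 1) ^ 2 - 2 * L * ((p' + 1) * (q' + 1)) - 3 * u', ?_⟩
    rw [hpdef, hqdef, hudef] at e1
    linear_combination (-1 : ℤ) * e1
  refine last_step (L + 2) (p + 1 + (q + 1)) _ u (l + 1)
    ((l + 1) * (3 * u + L) - 3 * (p' + q' + 2) - 5 - (l + 1) * (L + 2) + 5 * (l + 1))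
    (by linarith) ?_ (by omega) (by linarith) (by linarith) rfl ?_
  · rw [hpdef, hqdef, hl]
    ring
  · linear_combination (-3 * (L + 2) ^ 2) * e1 + (-3 * (L + 2) ^ 3) * e2



open Finset

theorem geom_parity (p : ℤ) (hp : Odd p) (n : ℕ) : Even (∑ i ∈ range n, p ^ i) ↔ Even n := by
  induction n with
  | zero => simp
  | succ n ih =>
    rw [sum_range_succ, Int.even_add, ih, Nat.even_add_one]
    have : ¬ Even (p ^ n) := Int.not_even_iff_odd.2 hp.pow
    tauto

theorem geom_pos (p : ℤ) (hp : 1 ≤ p) (n : ℕ) (hn : 1 ≤ n) : 1 ≤ ∑ i ∈ range n, p ^ i := by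
  obtain ⟨m, rfl⟩ : ∃ m, n = m + 1 := ⟨n - 1, by omega⟩
  rw [sum_range_succ']
  have : 0 ≤ ∑ i ∈ range m, p ^ (i + 1) := sum_nonneg fun i _ => by positivity
  simp only [pow_zero]
  linarith

theorem one_prime (u p : ℤ) (α : ℕ) (hue : Even u) (hp : Odd p) (hp1 : 1 ≤ p) (hα : 1 ≤ α)
    (h : (u - 1) * (∑ i ∈ range (α + 1), p ^ i) + 1 = u * p ^ α) : False := by
  rw [sum_range_succ] at h
  have h1 := geom_pos p hp1 α hα
  have h2 := geom_sum_mul p α
  have h3 : (∑ i ∈ range α, p ^ i) * (p - u) = 0 := by linear_combination h2 - h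
  rcases mul_eq_zero.1 h3 with h4 | h4
  · linarith
  · have : p = u := by linarith
    rw [this] at hp
    exact (Int.not_even_iff_odd.2 hp) hue

theorem big_step (u p q X Y G : ℤ) (hu : 2 ≤ u) (hup : u < p) (hpq : p < q) (hqu : q < u * u)
    (hX : p ^ 4 ≤ X) (hY : q ^ 2 ≤ Y) (hG : 1 ≤ G)
    (h : G * (X * Y) = (u - 1) * (p * X + q * Y - 1) - (p - 1) * (q - 1)) : False := by
  have hp0 : 0 < p := by linarith
  have hq0 : 0 < q := by linarith
  have hX0 : 0 < X := lt_of_lt_of_le (by positivity) hX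
  have hY0 : 0 < Y := lt_of_lt_of_le (by positivity) hY
  have h1 : X * Y ≤ G * (X * Y) := le_mul_of_one_le_left (by positivity) hG
  have h2 : 0 < (p - 1) * (q - 1) := mul_pos (by linarith) (by linarith)
  have h3 : X * Y < (u - 1) * p * X + (u - 1) * q * Y := by linarith
  have h4 : (p + 1) ^ 2 ≤ Y := le_trans (pow_le_pow_left₀ (by linarith) (by linarith) 2) hY
  have h5 : (u - 1) * p ≤ (p - 2) * p := mul_le_mul_of_nonneg_right (by linarith) hp0.le
  have h6 : (u - 1) * p * (p + 1) ^ 2 ≤ (p - 2) * p * Y :=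
    mul_le_mul h5 h4 (by positivity) (mul_nonneg (by linarith) hp0.le)
  have h7 : (u - 1) * q ≤ p * (p * p) := by
    have h8 : u * u ≤ p * p := mul_le_mul hup.le hup.le (by linarith) hp0.le
    exact mul_le_mul (by linarith) (by linarith) hq0.le hp0.le
  have h9 : (u - 1) * q * (p + 1) ^ 2 ≤ (4 * p + 1) * X := by
    have h10 : (p + 1) ^ 2 ≤ (4 * p + 1) * p := by nlinarith
    calc (u - 1) * q * (p + 1) ^ 2 ≤ p * (p * p) * ((4 * p + 1) * p) :=
          mul_le_mul h7 h10 (by positivity) (by positivity)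
      _ = (4 * p + 1) * p ^ 4 := by ring
      _ ≤ _ := mul_le_mul_of_nonneg_left hX (by positivity)
  have h11 := mul_le_mul_of_nonneg_right h6 hX0.le
  have h12 := mul_le_mul_of_nonneg_right h9 hY0.le
  have h13 := mul_lt_mul_of_pos_right h3 (show 0 < (p + 1) ^ 2 by positivity)
  linarith

theorem two_primes (u p q : ℤ) (α β : ℕ) (hu : 2 ≤ u) (hue : Even u) (hp : Odd p) (hq : Odd q)
    (hp3 : 3 ≤ p) (hpq : p < q) (hα : 1 ≤ α) (hβ : 1 ≤ β)
    (h : (u - 1) * (∑ i ∈ range (α + 1), p ^ i) * (∑ i ∈ range (β + 1), q ^ i) + 1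
      = u * p ^ α * q ^ β) : False := by
  have hodd : Odd ((u - 1) * (∑ i ∈ range (α + 1), p ^ i) * (∑ i ∈ range (β + 1), q ^ i)) := by
    rw [← Int.not_even_iff_odd, ← Int.even_add_one, h]
    exact (hue.mul_right _).mul_right _
  have hαe : Even α := by
    have h1 : Odd (∑ i ∈ range (α + 1), p ^ i) := (Int.odd_mul.1 (Int.odd_mul.1 hodd).1).2
    rw [← Int.not_even_iff_odd, geom_parity p hp, Nat.even_add_one, not_not] at h1
    exact h1
  have hβe : Even β := by
    have h1 : Odd (∑ i ∈ range (β + 1), q ^ i) := (Int.odd_mul.1 hodd).2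
    rw [← Int.not_even_iff_odd, geom_parity q hq, Nat.even_add_one, not_not] at h1
    exact h1
  have hα2 : 2 ≤ α := by obtain ⟨j, hj⟩ := hαe; omega
  have hβ2 : 2 ≤ β := by obtain ⟨j, hj⟩ := hβe; omega
  have h0 := h
  rw [sum_range_succ, sum_range_succ] at h
  have s1 := geom_pos p (by linarith) α hα
  have s2 := geom_pos q (by linarith) β hβ
  have g1 := geom_sum_mul p α
  have g2 := geom_sum_mul q β
  have hY : q ^ 2 ≤ q ^ β := pow_le_pow_right₀ (by linarith) hβ2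
  have hX : p ^ 2 ≤ p ^ α := pow_le_pow_right₀ (by linarith) hα2
  obtain ⟨s, hs⟩ : ∃ s, s = ∑ i ∈ range α, p ^ i := ⟨_, rfl⟩
  obtain ⟨t, ht⟩ : ∃ t, t = ∑ i ∈ range β, q ^ i := ⟨_, rfl⟩
  obtain ⟨X, hXd⟩ : ∃ X, X = p ^ α := ⟨_, rfl⟩
  obtain ⟨Y, hYd⟩ : ∃ Y, Y = q ^ β := ⟨_, rfl⟩
  rw [← hs, ← ht, ← hXd, ← hYd] at h
  rw [← hs] at s1
  rw [← ht] at s2
  rw [← hs, ← hXd] at g1
  rw [← ht, ← hYd] at g2
  rw [← hYd] at hY
  rw [← hXd] at hX
  have hp0 : 0 < p := by linarith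
  have hq0 : 0 < q := by linarith
  have hX0 : 0 < X := lt_of_lt_of_le (by positivity) hX
  have hY0 : 0 < Y := lt_of_lt_of_le (by positivity) hY
  have hup : u < p := by
    have h1 : (u - 1) * (s + X) * Y ≤ (u - 1) * (s + X) * (t + Y) :=
      mul_le_mul_of_nonneg_left (by linarith) (mul_nonneg (by linarith) (by linarith))
    have h2 : (u - 1) * (s + X) * Y < u * X * Y := by linarith
    have h3 : (u - 1) * (s + X) < u * X := lt_of_mul_lt_mul_right h2 hY0.le
    have h4 : s * (u - 1) ≤ s * (p - 1) := by linarith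
    have h5 : u - 1 ≤ p - 1 := le_of_mul_le_mul_left h4 (by linarith)
    have h6 : u ≠ p := by
      rintro rfl
      exact (Int.not_even_iff_odd.2 hp) hue
    omega
  obtain ⟨G, hGd⟩ : ∃ G, G = u * (u - 1) - (p - u) * (q - u) := ⟨_, rfl⟩
  have eG : G * (X * Y) = (u - 1) * (p * X + q * Y - 1) - (p - 1) * (q - 1) := by
    rw [hGd]
    linear_combination ((p - 1) * (q - 1)) * h - ((u - 1) * (t + Y) * (q - 1)) * g1
      - ((u - 1) * (p * X - 1)) * g2
  have hG : 1 ≤ G := by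
    have h1 : q * q ^ 2 ≤ q * Y := mul_le_mul_of_nonneg_left hY hq0.le
    have h2 : 0 < p * X := by positivity
    have h3 : (p - 1) * (q - 1) < q * q ^ 2 := by nlinarith
    have h4 : p * X + q * Y - 1 ≤ (u - 1) * (p * X + q * Y - 1) :=
      le_mul_of_one_le_left (by nlinarith) (by linarith)
    have h5 : 0 < G * (X * Y) := by linarith
    have := (mul_pos_iff_of_pos_right (mul_pos hX0 hY0)).1 h5
    omega
  have hqu : q < u * u := by
    have h1 : 1 * (q - u) ≤ (p - u) * (q - u) :=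
      mul_le_mul_of_nonneg_right (by linarith) (by linarith)
    linarith
  have hα3 : α = 2 := by
    by_contra hc
    have h4 : 4 ≤ α := by obtain ⟨j, hj⟩ := hαe; omega
    exact big_step u p q X Y G hu hup hpq hqu
      (by rw [hXd]; exact pow_le_pow_right₀ (by linarith) h4) hY hG eG
  obtain ⟨n, hn⟩ : ∃ n, n = (u - 1) * (s + X) - (u * X - (u - 1) * (s + X)) * (q - 1) := ⟨_, rfl⟩
  have en : (p - u) * s = n * t := by
    rw [hn]
    linear_combination g1 - h + (u * X - (u - 1) * (s + X)) * g2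
  have hn1 : 1 ≤ n := by
    have h1 : 0 < n * t := by rw [← en]; exact mul_pos (by linarith) (by linarith)
    have := (mul_pos_iff_of_pos_right (show 0 < t by linarith)).1 h1
    omega
  have hsp : s = p + 1 := by
    rw [hs, hα3, sum_range_succ, sum_range_succ, sum_range_zero]
    ring
  have hβ3 : β = 2 := by
    by_contra hc
    obtain ⟨j, hj⟩ : ∃ j, β = j + 1 + 1 + 1 := ⟨β - 3, by omega⟩
    have h1 : q ^ 2 + q + 1 ≤ t := by
      rw [ht, hj, sum_range_succ', sum_range_succ', sum_range_succ']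
      have : 0 ≤ ∑ i ∈ range j, q ^ (i + 1 + 1 + 1) := sum_nonneg fun i _ => by positivity
      have e : q ^ (1 + 1) = q ^ 2 := by norm_num
      simp only [pow_zero, zero_add, pow_one]
      linarith
    have h2 : t ≤ n * t := le_mul_of_one_le_left (by linarith) hn1
    rw [hsp] at en
    nlinarith
  have htq : t = q + 1 := by
    rw [ht, hβ3, sum_range_succ, sum_range_succ, sum_range_zero]
    ring
  refine core22 u p q n hu hue hp hq hup hpq hn1 (by rw [← hsp, ← htq]; exact en)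
    (by rw [← hGd]; exact hG) ?_
  rw [hsp, htq, hXd, hYd, hα3, hβ3] at h
  linear_combination h



open ArithmeticFunction

theorem sigma_two_cast (r : ℕ) : ((sigma 1 (2 ^ r) : ℕ) : ℤ) = 2 ^ (r + 1) - 1 := by
  have h : ((sigma 1 (2 ^ r) + 1 : ℕ) : ℤ) = ((2 ^ (r + 1) : ℕ) : ℤ) := by rw [sigma_two_pow r]
  push_cast at h
  linarith

theorem u_ge (r : ℕ) : (2 : ℤ) ≤ 2 ^ (r + 1) := by
  calc (2 : ℤ) = 2 ^ 1 := by norm_num
    _ ≤ 2 ^ (r + 1) := pow_le_pow_right₀ (by norm_num) (by omega)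

theorem u_even (r : ℕ) : Even ((2 : ℤ) ^ (r + 1)) := by
  rw [pow_succ]
  exact even_two.mul_left _

theorem not_one (r p α : ℕ) (hp : p.Prime) (hp2 : p ≠ 2) (hα : 1 ≤ α)
    (h : sigma 1 (2 ^ r * p ^ α) + 1 = 2 * (2 ^ r * p ^ α)) : False := by
  have hodd : Odd p := hp.odd_of_ne_two hp2
  have hc : Nat.Coprime (2 ^ r) (p ^ α) := Nat.Coprime.pow _ _ (Nat.coprime_two_left.2 hodd)
  rw [isMultiplicative_sigma.map_mul_of_coprime hc, sigma_one_apply_prime_pow hp] at h
  have h1 := congrArg (Nat.cast : ℕ → ℤ) h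
  push_cast at h1
  rw [sigma_two_cast] at h1
  refine one_prime (2 ^ (r + 1)) p α (u_even r) (by exact_mod_cast hodd)
    (by exact_mod_cast hp.one_le) hα ?_
  rw [h1]
  ring

theorem not_two (r p q α β : ℕ) (hp : p.Prime) (hp2 : p ≠ 2) (hq : q.Prime) (hpq : p < q)
    (hα : 1 ≤ α) (hβ : 1 ≤ β)
    (h : sigma 1 (2 ^ r * (p ^ α * q ^ β)) + 1 = 2 * (2 ^ r * (p ^ α * q ^ β))) : False := by
  have hodd : Odd p := hp.odd_of_ne_two hp2
  have hp3 : 3 ≤ p := by have := hp.two_le; omega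
  have hodd2 : Odd q := hq.odd_of_ne_two (by omega)
  have hc : Nat.Coprime (2 ^ r) (p ^ α * q ^ β) :=
    Nat.Coprime.pow_left _ (Nat.coprime_two_left.2 (hodd.pow.mul hodd2.pow))
  have hc2 : Nat.Coprime (p ^ α) (q ^ β) :=
    Nat.Coprime.pow _ _ ((Nat.coprime_primes hp hq).2 hpq.ne)
  rw [isMultiplicative_sigma.map_mul_of_coprime hc, isMultiplicative_sigma.map_mul_of_coprime hc2,
    sigma_one_apply_prime_pow hp, sigma_one_apply_prime_pow hq] at h
  have h1 := congrArg (Nat.cast : ℕ → ℤ) h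
  push_cast at h1
  rw [sigma_two_cast] at h1
  refine two_primes (2 ^ (r + 1)) p q α β (u_ge r) (u_even r) (by exact_mod_cast hodd)
    (by exact_mod_cast hodd2) (by exact_mod_cast hp3) (by exact_mod_cast hpq) hα hβ ?_
  rw [mul_assoc, h1]
  ring

theorem few (k : ℕ) (h : sigma 1 k + 1 = 2 * k) (hc : (k.primeFactors.erase 2).card ≤ 2) :
    ∃ r : ℕ, k = 2 ^ r := by
  have hk : k ≠ 0 := by omega
  obtain ⟨r, b, hb, rfl⟩ := Nat.exists_eq_two_pow_mul_odd hk
  have hb0 : b ≠ 0 := by rintro rfl; simp at hk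
  have hsub : b.primeFactors ⊆ (2 ^ r * b).primeFactors.erase 2 := by
    intro x hx
    rw [mem_erase]
    refine ⟨?_, Nat.primeFactors_mono (Dvd.intro_left _ rfl) hk hx⟩
    rintro rfl
    exact (Nat.not_even_iff_odd.2 hb) (even_iff_two_dvd.2 (Nat.dvd_of_mem_primeFactors hx))
  have hc2 : b.primeFactors.card ≤ 2 := (card_le_card hsub).trans hc
  have hprod : ∏ x ∈ b.primeFactors, x ^ b.factorization x = b :=
    Nat.prod_factorization_pow_eq_self hb0
  have hmem : ∀ x ∈ b.primeFactors, x.Prime ∧ x ≠ 2 ∧ 1 ≤ b.factorization x := fun x hx =>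
    ⟨Nat.prime_of_mem_primeFactors hx, (mem_erase.1 (hsub hx)).1,
      (Nat.prime_of_mem_primeFactors hx).factorization_pos_of_dvd hb0
        (Nat.dvd_of_mem_primeFactors hx)⟩
  have h3 : b.primeFactors.card = 0 ∨ b.primeFactors.card = 1 ∨ b.primeFactors.card = 2 := by
    omega
  rcases h3 with h3 | h3 | h3
  · rw [card_eq_zero.1 h3, prod_empty] at hprod
    exact ⟨r, by rw [← hprod, mul_one]⟩
  · obtain ⟨x, hx⟩ := card_eq_one.1 h3
    rw [hx, prod_singleton] at hprod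
    obtain ⟨h4, h5, h6⟩ := hmem x (by rw [hx]; exact mem_singleton_self x)
    rw [← hprod] at h
    exact (not_one r x _ h4 h5 h6 h).elim
  · obtain ⟨x, y, hxy, hx⟩ := card_eq_two.1 h3
    rw [hx, prod_pair hxy] at hprod
    obtain ⟨h4, h5, h6⟩ := hmem x (by rw [hx]; simp)
    obtain ⟨h7, h8, h9⟩ := hmem y (by rw [hx]; simp)
    rw [← hprod] at h
    rcases lt_or_gt_of_ne hxy with h10 | h10
    · exact (not_two r x y _ _ h4 h5 h7 h10 h6 h9 h).elim
    · rw [mul_comm (x ^ _)] at h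
      exact (not_two r y x _ _ h7 h8 h4 h10 h9 h6 h).elim

theorem first_or {m : ℕ} (hm : 1 ≤ m) :
    IsLeast {n : ℕ | 2 ≤ n ∧ a n = 2 ^ m} (p m) ∨
      (sigma 1 (a (p m)) + 1 = 2 * a (p m) ∧ 3 ≤ ((a (p m)).primeFactors.erase 2).card) := by
  by_cases h : IsLeast {n : ℕ | 2 ≤ n ∧ a n = 2 ^ m} (p m)
  · exact Or.inl h
  right
  rw [first_iff hm, not_not] at h
  obtain ⟨k, h1, h2, h3⟩ := h
  obtain ⟨hp, hlt⟩ := p_spec m
  have hlt2 := p_lt hm
  have hk : k ∈ S (p m) := by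
    refine ⟨by omega, by omega, ?_⟩
    rw [sigma_mul_prime hp (by omega) (by omega)]
    have : 2 * (k * p m) = (sigma 1 k + 1) * p m := by rw [h1]; ring
    rw [this]
    have h4 : p m ≤ sigma 1 k := by omega
    nlinarith
  have hmem : a (p m) ∈ S (p m) := Nat.sInf_mem ⟨k, hk⟩
  have hle : a (p m) ≤ k := Nat.sInf_le hk
  obtain ⟨j, hj⟩ : ∃ j, j = a (p m) := ⟨_, rfl⟩
  rw [← hj] at hmem hle ⊢
  obtain ⟨g1, g2, g3⟩ := hmem
  rw [sigma_mul_prime hp g1 (by omega)] at g3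
  obtain ⟨d, hd⟩ : ∃ d, sigma 1 j + (d + 1) = 2 * j := ⟨2 * j - sigma 1 j - 1, by omega⟩
  have e1 : 2 * (j * p m) = (sigma 1 j + (d + 1)) * p m := by rw [hd]; ring
  have e2 : (d + 1) * p m ≤ sigma 1 j := by nlinarith
  have hd0 : d = 0 := by
    by_contra hd0
    have : 2 * p m ≤ (d + 1) * p m := Nat.mul_le_mul_right _ (by omega)
    rw [pow_succ] at hlt2
    omega
  subst hd0
  refine ⟨by omega, ?_⟩
  by_contra hc
  obtain ⟨r, hr⟩ := few j (by omega) (by omega)
  have g4 : 2 ^ r < 2 ^ m := by omega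
  have g5 : 2 ^ m < 2 ^ (r + 1) := by rw [pow_succ 2 r]; omega
  have g6 := (Nat.pow_lt_pow_iff_right (by norm_num)).1 g4
  have g7 := (Nat.pow_lt_pow_iff_right (by norm_num)).1 g5
  omega

end Pool.Agent.MP_bcda77_nt.H45
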